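import Pool.Agent.JB.Final

/-!
MP_abf15b_co: the exact order of the defect `h m = m/4 + sqrt (m/32) - g m` of judicious
bipartitions, for every `m`: it is the distance `dT m` from `m` to the nearest number of edges
`C(2j+1,2)` of a complete graph of odd order. In particular the largest order is `sqrt m`,
attained at `m = C(2t,2)`.
-/

set_option autoImplicit false

namespace Pool.Agent.Results.MP_abf15b_co.ExactOrder

open Pool.Agent.JB

theorem result :
    (∀ m : ℕ, 20000 ≤ m → dT m / 2000 - 5 / 4 ≤ h m) ∧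
    (∀ m : ℕ, h m ≤ dT m + 1) ∧
    (∀ t : ℕ, 5000 ≤ t →
      Real.sqrt ((t * (2 * t - 1) : ℕ) : ℝ) / 2000 ≤ h (t * (2 * t - 1))) ∧
    (∀ m : ℕ, h m ≤ Real.sqrt (2 * m) + 3) :=
  final

end Pool.Agent.Results.MP_abf15b_co.ExactOrder
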