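import Pool.Agent.JB.XFinal

/-!
MP_abf15b_co: exact values of `g m`, and all extremal graphs, for every `m` whose distance to some
`C(2t+1,2)` is at most `t/1600` (a positive proportion of all `m`).
-/

set_option autoImplicit false

open Classical

namespace Pool.Agent.Results.MP_abf15b_co.ExactValues

open Pool.Agent.JB

theorem result :
    ∀ t : ℕ, 1600 ≤ t → ∀ s : ℤ, 1600 * |s| ≤ (t : ℤ) →
    ∀ m : ℕ, (m : ℤ) = ((2 * t + 1).choose 2 : ℕ) + s →
      ((g m : ℤ) = ((t + 1).choose 2 : ℕ) + min s 0) ∧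
      ∀ (n : ℕ) (G : SimpleGraph (Fin n)), G.edgeFinset.card = m →
        (gG G = g m ↔ ∃ C : Finset (Fin n), C.card = 2 * t + 1 ∧
          (G.edgeFinset.filter (fun e => ∀ v ∈ e, v ∈ C)).card =
            min m ((2 * t + 1).choose 2)) :=
  x_final

end Pool.Agent.Results.MP_abf15b_co.ExactValues
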